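import Pool.Agent.H51.MFQ.S1

/-!
# Module PBA: the operators of the Poincare-Birkhoff-Witt theorem
-/

set_option autoImplicit false

open Module MvPolynomial

namespace Pool.MFQ.PBA

variable {n : ℕ}

/-- Linear extension from monomials. -/
noncomputable def lin (f : (Fin n →₀ ℕ) → MvPolynomial (Fin n) ℂ) :
    MvPolynomial (Fin n) ℂ →ₗ[ℂ] MvPolynomial (Fin n) ℂ :=
  (MvPolynomial.basisMonomials (Fin n) ℂ).constr ℂ f

lemma lin_mon (f : (Fin n →₀ ℕ) → MvPolynomial (Fin n) ℂ) (α : Fin n →₀ ℕ) :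
    lin f (monomial α 1) = f α := by
  have h := (MvPolynomial.basisMonomials (Fin n) ℂ).constr_basis ℂ f α
  rwa [MvPolynomial.coe_basisMonomials] at h

/-- The span of the monomials of degree at most `p`. -/
noncomputable def FF (n p : ℕ) : Submodule ℂ (MvPolynomial (Fin n) ℂ) :=
  Submodule.span ℂ {v | ∃ γ : Fin n →₀ ℕ, γ.degree ≤ p ∧ v = monomial γ 1}

lemma mon_mem {p : ℕ} {γ : Fin n →₀ ℕ} (h : γ.degree ≤ p) :
    (monomial γ 1 : MvPolynomial (Fin n) ℂ) ∈ FF n p :=
  Submodule.subset_span ⟨γ, h, rfl⟩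

lemma FF_mono {p q : ℕ} (h : p ≤ q) : FF n p ≤ FF n q := by
  apply Submodule.span_mono
  rintro v ⟨γ, h1, rfl⟩
  exact ⟨γ, h1.trans h, rfl⟩

/-- The first index of the support. -/
noncomputable def mn (i : Fin n) (α : Fin n →₀ ℕ) : Fin n :=
  if h : α.support.Nonempty then α.support.min' h else i

/-- The recursion. -/
noncomputable def Tp (c : Fin n → Fin n → Fin n → ℂ) :
    ℕ → Fin n → (Fin n →₀ ℕ) → MvPolynomial (Fin n) ℂ
  | 0, i, α => monomial (α + Finsupp.single i 1) 1
  | p + 1, i, α =>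
    if α.degree ≤ p then Tp c p i α
    else if ∀ j ∈ α.support, i ≤ j then monomial (α + Finsupp.single i 1) 1
    else
      monomial (α + Finsupp.single i 1) 1 +
        lin (Tp c p (mn i α))
          (Tp c p i (α - Finsupp.single (mn i α) 1) -
            monomial (α - Finsupp.single (mn i α) 1 + Finsupp.single i 1) 1) +
        ∑ k, c i (mn i α) k • Tp c p k (α - Finsupp.single (mn i α) 1)

lemma Tp_stab (c : Fin n → Fin n → Fin n → ℂ) (i : Fin n) (α : Fin n →₀ ℕ) :
    ∀ q, α.degree ≤ q → Tp c q i α = Tp c α.degree i α := by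
  intro q
  induction q with
  | zero =>
    intro h
    rw [Nat.le_zero.mp h]
  | succ q ih =>
    intro h
    rcases Nat.lt_or_ge q α.degree with h1 | h1
    · have h2 : α.degree = q + 1 := by omega
      rw [h2]
    · rw [Tp, if_pos h1]
      exact ih h1

/-- The operators. -/
noncomputable def TT (c : Fin n → Fin n → Fin n → ℂ) (i : Fin n) :
    MvPolynomial (Fin n) ℂ →ₗ[ℂ] MvPolynomial (Fin n) ℂ :=
  lin (fun α => Tp c α.degree i α)

lemma TT_mon (c : Fin n → Fin n → Fin n → ℂ) (i : Fin n) (α : Fin n →₀ ℕ) {q : ℕ}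
    (h : α.degree ≤ q) : TT c i (monomial α 1) = Tp c q i α := by
  rw [TT, lin_mon, Tp_stab c i α q h]

lemma lin_eq (c : Fin n → Fin n → Fin n → ℂ) (i : Fin n) (q : ℕ) (v : MvPolynomial (Fin n) ℂ)
    (hv : v ∈ FF n q) : lin (Tp c q i) v = TT c i v := by
  refine Submodule.span_induction (p := fun v _ => lin (Tp c q i) v = TT c i v) ?_ ?_ ?_ ?_ hv
  · rintro v ⟨γ, h1, rfl⟩
    rw [lin_mon, TT_mon c i γ h1]
  · rw [map_zero, map_zero]
  · intro x y _ _ hx hy
    rw [map_add, map_add, hx, hy]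
  · intro r x _ hx
    rw [map_smul, map_smul, hx]

/-- `i ≤ α`: multiplication. -/
lemma TT_le (c : Fin n → Fin n → Fin n → ℂ) (i : Fin n) (α : Fin n →₀ ℕ)
    (h : ∀ j ∈ α.support, i ≤ j) :
    TT c i (monomial α 1) = monomial (α + Finsupp.single i 1) 1 := by
  rcases Nat.eq_zero_or_pos α.degree with h0 | h0
  · rw [TT_mon c i α (le_of_eq h0), Tp]
  · obtain ⟨p, hp⟩ : ∃ p, α.degree = p + 1 := ⟨α.degree - 1, by omega⟩
    rw [TT_mon c i α (le_of_eq hp), Tp, if_neg (by omega), if_pos h]

lemma exists_lt {i : Fin n} {α : Fin n →₀ ℕ} (h : ¬ ∀ j ∈ α.support, i ≤ j) :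
    mn i α ∈ α.support ∧ mn i α < i ∧ ∀ j ∈ α.support, mn i α ≤ j := by
  push Not at h
  obtain ⟨j, hj, hji⟩ := h
  have hne : α.support.Nonempty := ⟨j, hj⟩
  rw [mn, dif_pos hne]
  exact ⟨Finset.min'_mem _ _, lt_of_le_of_lt (Finset.min'_le _ _ hj) hji,
    fun k hk => Finset.min'_le _ _ hk⟩

lemma deg_sub {α : Fin n →₀ ℕ} {j : Fin n} (h : j ∈ α.support) :
    α - Finsupp.single j 1 + Finsupp.single j 1 = α ∧
      (α - Finsupp.single j 1).degree + 1 = α.degree := by
  have h1 : α - Finsupp.single j 1 + Finsupp.single j 1 = α := by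
    apply tsub_add_cancel_of_le
    rw [Finsupp.single_le_iff]
    exact Nat.one_le_iff_ne_zero.mpr (Finsupp.mem_support_iff.mp h)
  refine ⟨h1, ?_⟩
  conv_rhs => rw [← h1]
  rw [map_add, Finsupp.degree_single]

lemma TT_rec (c : Fin n → Fin n → Fin n → ℂ) (i : Fin n) (α : Fin n →₀ ℕ) (p : ℕ)
    (hp : α.degree = p + 1) (h : ¬ ∀ j ∈ α.support, i ≤ j)
    (hw : TT c i (monomial (α - Finsupp.single (mn i α) 1) 1) -
      monomial (α - Finsupp.single (mn i α) 1 + Finsupp.single i 1) 1 ∈ FF n p) :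
    TT c i (monomial α 1) = monomial (α + Finsupp.single i 1) 1 +
      TT c (mn i α) (TT c i (monomial (α - Finsupp.single (mn i α) 1) 1) -
        monomial (α - Finsupp.single (mn i α) 1 + Finsupp.single i 1) 1) +
      ∑ k, c i (mn i α) k • TT c k (monomial (α - Finsupp.single (mn i α) 1) 1) := by
  have hd := (deg_sub (exists_lt h).1).2
  have hd' : (α - Finsupp.single (mn i α) 1).degree ≤ p := by omega
  rw [TT_mon c i α (le_of_eq hp), Tp, if_neg (by omega), if_neg h]
  have e1 : ∀ k, Tp c p k (α - Finsupp.single (mn i α) 1) =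
      TT c k (monomial (α - Finsupp.single (mn i α) 1) 1) :=
    fun k => (TT_mon c k _ hd').symm
  simp only [e1]
  rw [lin_eq c (mn i α) p _ hw]

lemma TT_deg (c : Fin n → Fin n → Fin n → ℂ) : ∀ (p : ℕ) (i : Fin n) (α : Fin n →₀ ℕ),
    α.degree ≤ p → TT c i (monomial α 1) - monomial (α + Finsupp.single i 1) 1 ∈
      FF n α.degree := by
  intro p
  induction p with
  | zero =>
    intro i α h
    have h0 : α.degree = 0 := Nat.le_zero.mp h
    have : α = 0 := by
      have := (Finsupp.degree_eq_zero_iff α).mp h0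
      exact this
    rw [TT_le c i α (by intro j hj; rw [this] at hj; simp at hj), sub_self]
    exact Submodule.zero_mem _
  | succ p ih =>
    intro i α h
    rcases Nat.lt_or_ge α.degree (p + 1) with h1 | h1
    · exact ih i α (by omega)
    · have hp : α.degree = p + 1 := le_antisymm h h1
      by_cases hi : ∀ j ∈ α.support, i ≤ j
      · rw [TT_le c i α hi, sub_self]
        exact Submodule.zero_mem _
      · have hd := (deg_sub (exists_lt hi).1).2
        have hdp : (α - Finsupp.single (mn i α) 1).degree = p := by omega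
        have hw := ih i (α - Finsupp.single (mn i α) 1) (by omega)
        rw [hdp] at hw
        rw [TT_rec c i α p hp hi hw, hp]
        have hmap : ∀ (j : Fin n) (v : MvPolynomial (Fin n) ℂ), v ∈ FF n p →
            TT c j v ∈ FF n (p + 1) := by
          intro j v hv
          refine Submodule.span_induction (p := fun v _ => TT c j v ∈ FF n (p + 1))
            ?_ ?_ ?_ ?_ hv
          · rintro v ⟨γ, h1, rfl⟩
            have h2 := ih j γ h1
            have h3 : TT c j (monomial γ 1) =
                (TT c j (monomial γ 1) - monomial (γ + Finsupp.single j 1) 1) +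
                  monomial (γ + Finsupp.single j 1) 1 := by abel
            rw [h3]
            refine Submodule.add_mem _ (FF_mono (by omega) h2) (mon_mem ?_)
            rw [map_add, Finsupp.degree_single]
            omega
          · rw [map_zero]
            exact Submodule.zero_mem _
          · intro x y _ _ hx hy
            rw [map_add]
            exact Submodule.add_mem _ hx hy
          · intro r x _ hx
            rw [map_smul]
            exact Submodule.smul_mem _ _ hx
        have e : monomial (α + Finsupp.single i 1) (1 : ℂ) +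
            TT c (mn i α) (TT c i (monomial (α - Finsupp.single (mn i α) 1) 1) -
              monomial (α - Finsupp.single (mn i α) 1 + Finsupp.single i 1) 1) +
            ∑ k, c i (mn i α) k • TT c k (monomial (α - Finsupp.single (mn i α) 1) 1) -
            monomial (α + Finsupp.single i 1) 1 =
            TT c (mn i α) (TT c i (monomial (α - Finsupp.single (mn i α) 1) 1) -
              monomial (α - Finsupp.single (mn i α) 1 + Finsupp.single i 1) 1) +
            ∑ k, c i (mn i α) k • TT c k (monomial (α - Finsupp.single (mn i α) 1) 1) := by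
          abel
        rw [e]
        refine Submodule.add_mem _ (hmap _ _ hw) (Submodule.sum_mem _ fun k _ =>
          Submodule.smul_mem _ _ (hmap _ _ (mon_mem (by omega))))

/-- (E3) -/
lemma TT_swap (c : Fin n → Fin n → Fin n → ℂ) (i j : Fin n) (β : Fin n →₀ ℕ) (hji : j < i)
    (hj : ∀ k ∈ β.support, j ≤ k) :
    TT c i (TT c j (monomial β 1)) = TT c j (TT c i (monomial β 1)) +
      ∑ k, c i j k • TT c k (monomial β 1) := by
  rw [TT_le c j β hj]
  set α := β + Finsupp.single j 1 with hα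
  have hjα : j ∈ α.support := by
    rw [Finsupp.mem_support_iff, hα, Finsupp.add_apply, Finsupp.single_eq_same]
    omega
  have hi : ¬ ∀ k ∈ α.support, i ≤ k := fun h => absurd (h j hjα) (not_le.mpr hji)
  have hsub : ∀ k ∈ α.support, j ≤ k := by
    intro k hk
    rw [hα] at hk
    rcases Finset.mem_union.mp (Finsupp.support_add hk) with h1 | h1
    · exact hj k h1
    · rw [Finset.mem_singleton.mp (Finsupp.support_single_subset h1)]
  have hmn : mn i α = j := by
    have h1 := exists_lt hi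
    exact le_antisymm (h1.2.2 j hjα) (hsub _ h1.1)
  have hβ : α - Finsupp.single j 1 = β := by rw [hα, add_tsub_cancel_right]
  have hdeg : α.degree = β.degree + 1 := by rw [hα, map_add, Finsupp.degree_single]
  have hw := TT_deg c β.degree i β le_rfl
  have hrec := TT_rec c i α β.degree hdeg hi (by rw [hmn, hβ]; exact hw)
  rw [hmn, hβ] at hrec
  rw [hrec, map_sub]
  have h2 : TT c j (monomial (β + Finsupp.single i 1) 1) =
      monomial (α + Finsupp.single i 1) 1 := by
    rw [TT_le c j _ ?_, hα]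
    · congr 1
      abel
    · intro k hk
      rcases Finset.mem_union.mp (Finsupp.support_add hk) with h1 | h1
      · exact hj k h1
      · rw [Finset.mem_singleton.mp (Finsupp.support_single_subset h1)]
        exact hji.le
  rw [h2]
  abel

variable {𝔤 : Type} [LieRing 𝔤] [LieAlgebra ℂ 𝔤]

/-- The structure constants. -/
noncomputable def cc (b : Basis (Fin n) ℂ 𝔤) (i j k : Fin n) : ℂ := b.repr ⁅b i, b j⁆ k

/-- The action of the Lie algebra. -/
noncomputable def SS (b : Basis (Fin n) ℂ 𝔤) : 𝔤 →ₗ[ℂ] Module.End ℂ (MvPolynomial (Fin n) ℂ) :=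
  b.constr ℂ (fun i => TT (cc b) i)

lemma SS_b (b : Basis (Fin n) ℂ 𝔤) (i : Fin n) : SS b (b i) = TT (cc b) i := by
  rw [SS, Basis.constr_basis]

lemma SS_br (b : Basis (Fin n) ℂ 𝔤) (i j : Fin n) :
    SS b ⁅b i, b j⁆ = ∑ k, cc b i j k • TT (cc b) k := by
  have h := b.sum_repr ⁅b i, b j⁆
  conv_lhs => rw [← h]
  rw [map_sum]
  refine Finset.sum_congr rfl fun k _ => ?_
  rw [map_smul, SS_b]
  rfl

lemma SS_br_apply (b : Basis (Fin n) ℂ 𝔤) (i j : Fin n) (v : MvPolynomial (Fin n) ℂ) :
    SS b ⁅b i, b j⁆ v = ∑ k, cc b i j k • TT (cc b) k v := by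
  rw [SS_br, LinearMap.sum_apply]
  rfl

/-- The commutation relation at a vector. -/
def Comm (b : Basis (Fin n) ℂ 𝔤) (v : MvPolynomial (Fin n) ℂ) : Prop :=
  ∀ x y : 𝔤, SS b x (SS b y v) - SS b y (SS b x v) = SS b ⁅x, y⁆ v

lemma Comm_of_basis (b : Basis (Fin n) ℂ 𝔤) (v : MvPolynomial (Fin n) ℂ)
    (h : ∀ i j, SS b (b i) (SS b (b j) v) - SS b (b j) (SS b (b i) v) = SS b ⁅b i, b j⁆ v) :
    Comm b v := by
  intro x y
  have hx : x ∈ Submodule.span ℂ (Set.range b) := by rw [b.span_eq]; trivial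
  have hy : y ∈ Submodule.span ℂ (Set.range b) := by rw [b.span_eq]; trivial
  refine Submodule.span_induction (p := fun x _ => SS b x (SS b y v) - SS b y (SS b x v) =
    SS b ⁅x, y⁆ v) ?_ ?_ ?_ ?_ hx
  · rintro x ⟨i, rfl⟩
    refine Submodule.span_induction (p := fun y _ => SS b (b i) (SS b y v) -
      SS b y (SS b (b i) v) = SS b ⁅b i, y⁆ v) ?_ ?_ ?_ ?_ hy
    · rintro y ⟨j, rfl⟩
      exact h i j
    · simp
    · intro u w _ _ hu hw
      rw [lie_add, map_add, map_add, LinearMap.add_apply, LinearMap.add_apply,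
        LinearMap.add_apply, map_add, ← hu, ← hw]
      abel
    · intro r u _ hu
      rw [lie_smul, map_smul, map_smul, LinearMap.smul_apply, LinearMap.smul_apply,
        LinearMap.smul_apply, map_smul, ← hu, smul_sub]
  · simp
  · intro u w _ _ hu hw
    rw [add_lie, map_add, map_add, LinearMap.add_apply, LinearMap.add_apply,
      LinearMap.add_apply, map_add, ← hu, ← hw]
    abel
  · intro r u _ hu
    rw [smul_lie, map_smul, map_smul, LinearMap.smul_apply, LinearMap.smul_apply,
      LinearMap.smul_apply, map_smul, ← hu, smul_sub]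

lemma Comm_span (b : Basis (Fin n) ℂ 𝔤) (p : ℕ)
    (h : ∀ γ : Fin n →₀ ℕ, γ.degree ≤ p → Comm b (monomial γ 1))
    (v : MvPolynomial (Fin n) ℂ) (hv : v ∈ FF n p) : Comm b v := by
  refine Submodule.span_induction (p := fun v _ => Comm b v) ?_ ?_ ?_ ?_ hv
  · rintro v ⟨γ, h1, rfl⟩
    exact h γ h1
  · intro x y
    simp
  · intro u w _ _ hu hw x y
    have h1 := hu x y
    have h2 := hw x y
    simp only [map_add]
    rw [← h1, ← h2]
    abel
  · intro r u _ hu x y
    have h1 := hu x y
    simp only [map_smul]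
    rw [← h1, smul_sub]

lemma step (b : Basis (Fin n) ℂ 𝔤) (α : Fin n →₀ ℕ) (p : ℕ) (hα : α.degree ≤ p)
    (IH : ∀ q < p, ∀ γ : Fin n →₀ ℕ, γ.degree ≤ q → Comm b (monomial γ 1))
    (i j : Fin n)
    (hm : ∃ m ∈ α.support, m < i ∧ m < j ∧ ∀ k ∈ α.support, m ≤ k) :
    SS b (b i) (SS b (b j) (monomial α 1)) - SS b (b j) (SS b (b i) (monomial α 1)) =
        SS b ⁅b i, b j⁆ (monomial α 1) := by
  obtain ⟨m, hmα, hmi, hmj, hmk⟩ := hm
  obtain ⟨hβ, hdeg⟩ := deg_sub hmα
  set β := α - Finsupp.single m 1 with hβdef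
  have hβlt : β.degree < p := by omega
  have hmβ : ∀ k ∈ β.support, m ≤ k := by
    intro k hk
    apply hmk
    rw [← hβ]
    rw [Finsupp.mem_support_iff] at hk ⊢
    rw [Finsupp.add_apply]
    omega
  have hadd : ∀ (l : Fin n), m < l → ∀ k ∈ (β + Finsupp.single l 1).support, m ≤ k := by
    intro l hl k hk
    rcases Finset.mem_union.mp (Finsupp.support_add hk) with h1 | h1
    · exact hmβ k h1
    · rw [Finset.mem_singleton.mp (Finsupp.support_single_subset h1)]
      exact hl.le
  have hTm : monomial α (1 : ℂ) = SS b (b m) (monomial β 1) := by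
    rw [SS_b, TT_le (cc b) m β hmβ, hβ]
  have Cβ : Comm b (monomial β 1) := IH β.degree hβlt β le_rfl
  -- the main computation
  have swap : ∀ l l' : Fin n, m < l → m < l' →
      SS b (b l) (SS b (b m) (SS b (b l') (monomial β 1))) =
        SS b (b m) (SS b (b l) (SS b (b l') (monomial β 1))) +
          SS b ⁅b l, b m⁆ (SS b (b l') (monomial β 1)) := by
    intro l l' hl hl'
    have hw := TT_deg (cc b) β.degree l' β le_rfl
    have hC : Comm b (TT (cc b) l' (monomial β 1) - monomial (β + Finsupp.single l' 1) 1) :=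
      Comm_span b β.degree (fun γ hγ => IH β.degree hβlt γ hγ) _ hw
    have h1 := hC (b l) (b m)
    have h2 := TT_swap (cc b) l m (β + Finsupp.single l' 1) hl (hadd l' hl')
    rw [← SS_br_apply, ← SS_b, ← SS_b] at h2
    have h3 : SS b (b l') (monomial β 1) =
        (TT (cc b) l' (monomial β 1) - monomial (β + Finsupp.single l' 1) 1) +
          monomial (β + Finsupp.single l' 1) 1 := by
      rw [SS_b]
      abel
    rw [h3]
    generalize (TT (cc b) l' (monomial β 1) - monomial (β + Finsupp.single l' 1) 1) = w at h1 ⊢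
    generalize (monomial (β + Finsupp.single l' 1) 1 : MvPolynomial (Fin n) ℂ) = z at h2 ⊢
    simp only [map_add]
    rw [h2]
    rw [sub_eq_iff_eq_add] at h1
    rw [h1]
    abel
  have e1 : ∀ l l' : Fin n, m < l → m < l' →
      SS b (b l) (SS b (b l') (monomial α 1)) =
        SS b (b m) (SS b (b l) (SS b (b l') (monomial β 1))) +
          SS b ⁅b l, b m⁆ (SS b (b l') (monomial β 1)) +
          SS b (b l) (SS b ⁅b l', b m⁆ (monomial β 1)) := by
    intro l l' hl hl'
    have h1 := Cβ (b l') (b m)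
    rw [sub_eq_iff_eq_add] at h1
    rw [hTm, h1, map_add, swap l l' hl hl']
    abel
  rw [e1 i j hmi hmj, e1 j i hmj hmi]
  have c1 := Cβ (b i) (b j)
  have c2 := Cβ ⁅b i, b m⁆ (b j)
  have c3 := Cβ (b i) ⁅b j, b m⁆
  have c4 := Cβ ⁅b i, b j⁆ (b m)
  have jac : ⁅⁅b i, b j⁆, b m⁆ = ⁅⁅b i, b m⁆, b j⁆ + ⁅b i, ⁅b j, b m⁆⁆ := by
    rw [leibniz_lie (b i) (b j) (b m), ← lie_skew (b j) ⁅b i, b m⁆]
    abel
  rw [jac, map_add, LinearMap.add_apply, ← c2, ← c3] at c4
  have c1' := congrArg (SS b (b m)) c1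
  rw [map_sub] at c1'
  rw [hTm]
  rw [sub_eq_iff_eq_add] at c4
  rw [c4, ← c1']
  abel

lemma comm_mon (b : Basis (Fin n) ℂ 𝔤) : ∀ (p : ℕ) (α : Fin n →₀ ℕ), α.degree ≤ p →
    Comm b (monomial α 1) := by
  intro p
  induction p using Nat.strong_induction_on with
  | _ p IH =>
  intro α hα
  apply Comm_of_basis
  have key : ∀ i j : Fin n, j < i → (∀ k ∈ α.support, j ≤ k) →
      SS b (b i) (SS b (b j) (monomial α 1)) - SS b (b j) (SS b (b i) (monomial α 1)) =
        SS b ⁅b i, b j⁆ (monomial α 1) := by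
    intro i j hji hj
    rw [SS_br_apply, SS_b, SS_b, TT_swap (cc b) i j α hji hj]
    abel
  intro i j
  rcases lt_trichotomy j i with hji | hji | hji
  · by_cases hj : ∀ k ∈ α.support, j ≤ k
    · exact key i j hji hj
    · exact step b α p hα IH i j (by
        have h := exists_lt hj
        exact ⟨mn j α, h.1, h.2.1.trans hji, h.2.1, h.2.2⟩)
  · subst hji
    rw [sub_self, lie_self, map_zero, LinearMap.zero_apply]
  · by_cases hi : ∀ k ∈ α.support, i ≤ k
    · have h := key j i hji hi
      rw [← lie_skew, map_neg, LinearMap.neg_apply, ← h]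
      abel
    · exact step b α p hα IH i j (by
        have h := exists_lt hi
        exact ⟨mn i α, h.1, h.2.1, h.2.1.trans hji, h.2.2⟩)

end Pool.MFQ.PBA

namespace Pool.MFQ

theorem t_pba : PBAStmt := by
  intro 𝔤 _ _ n b
  refine ⟨fun i => PBA.TT (PBA.cc b) i, ?_, ?_⟩
  · intro i j
    apply (MvPolynomial.basisMonomials (Fin n) ℂ).ext
    intro α
    rw [MvPolynomial.coe_basisMonomials]
    have h := PBA.comm_mon b α.degree α le_rfl (b i) (b j)
    rw [PBA.SS_br, PBA.SS_b, PBA.SS_b] at h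
    exact h
  · intro i α h
    exact PBA.TT_le (PBA.cc b) i α h

end Pool.MFQ
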