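import Pool.Agent.H50.MFQ.THB
import Pool.Agent.H50.MFQ.SYA
import Pool.Agent.H50.MFQ.SYT
import Pool.Agent.H46.MFQ.REL
import Pool.Agent.H85.MFQ.DEP
import Pool.Agent.H85.MFQ.ALG
import Pool.Agent.H85.MFQ.COM
import Pool.Agent.H95.MFQ.IND
import Pool.Agent.H95.MFQ.UNQ
import Pool.Agent.H95.MFQ.THA
import Pool.Agent.H76.MFQ.MET
import Pool.Agent.H76.MFQ.CAR
import Pool.Agent.H76.MFQ.TAY
import Pool.Agent.H53.MFQ.ORE
import Pool.Agent.H53.MFQ.SEM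
import Pool.Agent.H53.MFQ.TPO
import Pool.Agent.H51.MFQ.PBA
import Pool.Agent.H3.MFQ.PBW
import Pool.Agent.H3.MFQ.TF
import Pool.Agent.H3.MFQ.VIN
import Pool.Agent.H79.MFQ.EVI
import Pool.Agent.H79.MFQ.LOC
import Pool.Agent.H79.MFQ.TRK
import Pool.Agent.H79.MFQ.VRK
import Pool.Agent.H25.MFQ.BAS
import Pool.Agent.H34.MFQ.EXA
import Pool.Agent.H34.MFQ.POI
import Pool.Agent.H34.MFQ.STB
import Pool.Agent.H41.MFQ.SLF
import Pool.Agent.H41.MFQ.SLI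
import Pool.Agent.H41.MFQ.STV
import Pool.Agent.H2.MFQ.TRU
import Pool.Agent.H52.MFQ.TPH
import Pool.Agent.H52.MFQ.OPC
import Pool.Agent.H52.MFQ.ASM
import Pool.Agent.H22.MFQ.Tak

/-!
# Board mfq: assembly
-/

set_option autoImplicit false

namespace Pool.MFQ

theorem all_tha : THAStmt :=
  h_tha (t_alg t_rel t_dep h_ind) t_cev (t_ore t_cev) (t_tf (t_pbw t_pba))
    (h_unq (t_pbw t_pba)) t_sya t_syt t_EVI t_thb

theorem all_main : MainStmt :=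
  t_asm all_tha t_bas (t_sli t_LOC (t_slf t_exa)) (t_tay t_car) (t_tru (t_TRK t_LOC))
    (t_tpo t_tph) t_opc t_tr2 t_com t_poi (t_stb t_opc) t_sem

theorem all_tak : TAKStmt := t_tak t_stv t_vin

end Pool.MFQ
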