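import Mathlib

/-!
# Board mfq (MP_84bfea_al): definitions

Quantisation of Mishchenko-Fomenko subalgebras.  `S(𝔤)` is realised as the algebra of polynomial
functions on the dual space.
-/

set_option autoImplicit false

open Module

namespace Pool.MFQ

section Statement

variable {𝔤 : Type} [LieRing 𝔤] [LieAlgebra ℂ 𝔤]

/-- The coadjoint vector field (up to sign): `(coad x ξ) y = ξ ⁅x, y⁆`. -/
def coad (x : 𝔤) (ξ : Dual ℂ 𝔤) : Dual ℂ 𝔤 := ξ ∘ₗ (LieAlgebra.ad ℂ 𝔤 x)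

/-- The stabiliser of `ξ` in `𝔤`. -/
def stab (ξ : Dual ℂ 𝔤) : Submodule ℂ 𝔤 where
  carrier := {x | ∀ y : 𝔤, ξ ⁅x, y⁆ = 0}
  add_mem' := by
    intro x y hx hy z
    rw [add_lie, map_add, hx z, hy z, add_zero]
  zero_mem' := by
    intro z
    rw [zero_lie, map_zero]
  smul_mem' := by
    intro c x hx z
    rw [smul_lie, map_smul, hx z, smul_zero]

/-- `a` is regular: its coadjoint orbit has maximal dimension, i.e. its stabiliser has minimal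
dimension. -/
def IsReg (a : Dual ℂ 𝔤) : Prop :=
  ∀ ξ : Dual ℂ 𝔤, finrank ℂ (stab a) ≤ finrank ℂ (stab ξ)

/-- `f` is analytic in a neighbourhood of `a` (read in linear coordinates). -/
def AnNear (a : Dual ℂ 𝔤) (f : Dual ℂ 𝔤 → ℂ) : Prop :=
  ∃ (n : ℕ) (e : (Fin n → ℂ) ≃ₗ[ℂ] Dual ℂ 𝔤), AnalyticAt ℂ (fun t => f (e t)) (e.symm a)

/-- `P` holds in a neighbourhood of `a` (read in linear coordinates). -/
def Near (a : Dual ℂ 𝔤) (P : Dual ℂ 𝔤 → Prop) : Prop :=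
  ∃ (n : ℕ) (e : (Fin n → ℂ) ≃ₗ[ℂ] Dual ℂ 𝔤), ∀ᶠ t in nhds (e.symm a), P (e t)

/-- Local `Ad^*`-invariant functions at `a`: analytic near `a`, and constant along coadjoint
orbits near `a` (the derivative along all coadjoint directions vanishes). -/
def LocInv (a : Dual ℂ 𝔤) (f : Dual ℂ 𝔤 → ℂ) : Prop :=
  AnNear a f ∧
    Near a (fun ξ => ∀ x : 𝔤, HasDerivAt (fun s : ℂ => f (ξ + s • coad x ξ)) 0 0)

/-- The coefficient `f_k` of `f (a + s ξ) = f a + ∑ s ^ k f_k (ξ)`. -/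
noncomputable def taylorF (a : Dual ℂ 𝔤) (f : Dual ℂ 𝔤 → ℂ) (k : ℕ) : Dual ℂ 𝔤 → ℂ :=
  fun ξ => ((k.factorial : ℕ) : ℂ)⁻¹ * iteratedDeriv k (fun s : ℂ => f (a + s • ξ)) 0

/-- The Mishchenko-Fomenko subalgebra. -/
noncomputable def MF (a : Dual ℂ 𝔤) : Subalgebra ℂ (Dual ℂ 𝔤 → ℂ) :=
  Algebra.adjoin ℂ {P | ∃ (f : Dual ℂ 𝔤 → ℂ) (k : ℕ), LocInv a f ∧ 1 ≤ k ∧ P = taylorF a f k}

variable (𝔤) in
/-- The part of filtration degree `< k` of the enveloping algebra. -/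
noncomputable def Ulow (k : ℕ) : Submodule ℂ (UniversalEnvelopingAlgebra ℂ 𝔤) :=
  Submodule.span ℂ {u | ∃ l : List 𝔤, l.length < k ∧
    u = (l.map (UniversalEnvelopingAlgebra.ι ℂ)).prod}

/-- `u` is, modulo filtration degree `< k`, a combination of products of `k` elements of `𝔤`, and
`P` is the corresponding homogeneous polynomial function of degree `k`: if `P ≠ 0` this says that
`u` has filtration degree exactly `k` and principal symbol `P`. -/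
def HasSym (k : ℕ) (u : UniversalEnvelopingAlgebra ℂ 𝔤) (P : Dual ℂ 𝔤 → ℂ) : Prop :=
  ∃ (m : ℕ) (c : Fin m → ℂ) (x : Fin m → Fin k → 𝔤),
    u - ∑ i, c i • (List.ofFn fun j => UniversalEnvelopingAlgebra.ι ℂ (x i j)).prod ∈ Ulow 𝔤 k ∧
    ∀ ξ : Dual ℂ 𝔤, P ξ = ∑ i, c i * ∏ j, ξ (x i j)

/-- `A` is a quantisation of the Mishchenko-Fomenko subalgebra at `a`. -/
structure IsQuant (a : Dual ℂ 𝔤) (A : Subalgebra ℂ (UniversalEnvelopingAlgebra ℂ 𝔤)) : Prop where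
  comm : ∀ u ∈ A, ∀ v ∈ A, u * v = v * u
  sym_mem : ∀ u ∈ A, u ≠ 0 → ∃ (k : ℕ) (P : Dual ℂ 𝔤 → ℂ), P ≠ 0 ∧ P ∈ MF a ∧ HasSym k u P
  gen : MF a = Algebra.adjoin ℂ {P | P ≠ 0 ∧ ∃ u ∈ A, ∃ k : ℕ, HasSym k u P}

/-- Generic elements of the dual space with respect to the ideal `V`. -/
def Gen (V : LieIdeal ℂ 𝔤) (a : Dual ℂ 𝔤) : Prop :=
  IsReg a ∧ ∀ ξ : Dual ℂ 𝔤,
    finrank ℂ (stab a ⊓ V.toSubmodule : Submodule ℂ 𝔤) ≤
      finrank ℂ (stab ξ ⊓ V.toSubmodule : Submodule ℂ 𝔤)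

/-- `stab ξ + V` depends only on the restriction of `ξ` to `V`, for generic `ξ`. -/
def CondC (V : LieIdeal ℂ 𝔤) : Prop :=
  ∀ ξ ξ' : Dual ℂ 𝔤, Gen V ξ → Gen V ξ' → (∀ v ∈ V, ξ v = ξ' v) →
    stab ξ ⊔ V.toSubmodule = stab ξ' ⊔ V.toSubmodule

/-- `V` is an abelian ideal. -/
def IsAb (V : LieIdeal ℂ 𝔤) : Prop := ∀ x ∈ V, ∀ y ∈ V, ⁅x, y⁆ = 0

/-- Part 1: abelian ideals with condition (C), generic `a`. -/
def MainStmt : Prop :=
  ∀ (𝔤 : Type) [LieRing 𝔤] [LieAlgebra ℂ 𝔤] [FiniteDimensional ℂ 𝔤] (V : LieIdeal ℂ 𝔤),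
    IsAb V → CondC V → ∀ a : Dual ℂ 𝔤, Gen V a → ∃ A, IsQuant a A

end Statement

end Pool.MFQ
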