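import Pool.Agent.H51.MFQ.Defs

/-!
# Board mfq (MP_84bfea_al): typed Props

Text: team-store `MFQ_PLAN_helper51.md`.
-/

set_option autoImplicit false

open Module

namespace Pool.MFQ

/-! ## Algebraic part -/

section Alg

open MvPolynomial

/-- Elements of `S(V) + S(V)·h`. -/
abbrev Lm (σ τ : Type) : Type := MvPolynomial σ ℂ × (τ → MvPolynomial σ ℂ)

/-- The derivation of `S(V)` given by `P`. -/
noncomputable def dvG {σ τ : Type} [Fintype τ]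
    (D : τ → Derivation ℂ (MvPolynomial σ ℂ) (MvPolynomial σ ℂ))
    (P : Lm σ τ) (φ : MvPolynomial σ ℂ) : MvPolynomial σ ℂ := ∑ i, P.2 i * D i φ

/-- The Poisson bracket of `S(V) + S(V)·h`. -/
noncomputable def brG {σ τ : Type} [Fintype τ]
    (D : τ → Derivation ℂ (MvPolynomial σ ℂ) (MvPolynomial σ ℂ))
    (c : τ → τ → τ → ℂ) (β : τ → τ → MvPolynomial σ ℂ) (P Q : Lm σ τ) : Lm σ τ :=
  (∑ i, ∑ j, P.2 i * Q.2 j * β i j + dvG D P Q.1 - dvG D Q P.1,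
   fun k => ∑ i, ∑ j, c i j k • (P.2 i * Q.2 j) + dvG D P (Q.2 k) - dvG D Q (P.2 k))

/-- The structure of `U(𝔤)` over `S(V)`. -/
structure Ore (σ τ : Type) [Fintype τ] (U : Type) [Ring U] [Algebra ℂ U] where
  e : MvPolynomial σ ℂ →ₐ[ℂ] U
  x : τ → U
  D : τ → Derivation ℂ (MvPolynomial σ ℂ) (MvPolynomial σ ℂ)
  c : τ → τ → τ → ℂ
  β : τ → τ → MvPolynomial σ ℂ
  hx : ∀ i φ, x i * e φ - e φ * x i = e (D i φ)
  hc : ∀ i j, x i * x j - x j * x i = ∑ k, c i j k • x k + e (β i j)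
  hD : ∀ i j φ, D i (D j φ) - D j (D i φ) = ∑ k, c i j k • D k φ

/-- The half-density lift `φ x ↦ (φ x + x φ) / 2`. -/
noncomputable def Ore.th {σ τ U : Type} [Fintype τ] [Ring U] [Algebra ℂ U] (O : Ore σ τ U)
    (P : Lm σ τ) : U :=
  O.e P.1 + (2⁻¹ : ℂ) • ∑ i, (O.e (P.2 i) * O.x i + O.x i * O.e (P.2 i))

/-- `S(V) + S(V)·h` in the polynomial ring `S(V)[h]`. -/
noncomputable def toP {σ τ : Type} [Fintype τ] (P : Lm σ τ) :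
    MvPolynomial τ (MvPolynomial σ ℂ) := C P.1 + ∑ i, C (P.2 i) * X i

/-- THB: the half-density lift is a Lie homomorphism. -/
def THBStmt : Prop :=
  ∀ (σ τ U : Type) [Fintype τ] [Ring U] [Algebra ℂ U] (O : Ore σ τ U) (P Q : Lm σ τ),
    O.th P * O.th Q - O.th Q * O.th P = O.th (brG O.D O.c O.β P Q)

/-- REL: linear dependence relations over `S(V)` between Poisson commuting elements lift. -/
def RELStmt : Prop :=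
  ∀ (σ τ U ι : Type) [Fintype τ] [Ring U] [Algebra ℂ U] (O : Ore σ τ U) [Fintype ι]
    (P : ι → Lm σ τ) (R : Lm σ τ) (c : MvPolynomial σ ℂ) (ψ : ι → MvPolynomial σ ℂ)
    (ψ₀ : MvPolynomial σ ℂ),
    LinearIndependent (MvPolynomial σ ℂ) (fun a => (P a).2) →
    (∀ a b, brG O.D O.c O.β (P a) (P b) = 0) → (∀ a, brG O.D O.c O.β (P a) R = 0) →
    c ≠ 0 → (∀ k, c * R.2 k = ∑ a, ψ a * (P a).2 k) → c * R.1 = ∑ a, ψ a * (P a).1 + ψ₀ →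
    O.e c * O.th R = ∑ a, O.e (ψ a) * O.th (P a) + O.e ψ₀

/-- DEP: linear algebra over the domain `S(V)`. -/
def DEPStmt : Prop :=
  ∀ (R M J : Type) [CommRing R] [IsDomain R] [AddCommGroup M] [Module R M] (v : J → M)
    (s : Finset J),
    ∃ I : Finset J, I ⊆ s ∧ LinearIndependent R (fun a : I => v a) ∧
      ∀ j ∈ s, ∃ (c : R) (ψ : I → R), c ≠ 0 ∧ c • v j = ∑ a, ψ a • v a

/-- IND: affine forms with independent linear parts are algebraically independent. -/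
def INDStmt : Prop :=
  ∀ (R τ ι : Type) [CommRing R] [IsDomain R] [Fintype τ] [Fintype ι] (p₀ : ι → R)
    (p : ι → τ → R), LinearIndependent R p →
    AlgebraicIndependent R (fun a => (C (p₀ a) + ∑ i, C (p a i) * X i : MvPolynomial τ R))

/-- ALG: relations between Poisson commuting elements lift to `U`. -/
def ALGStmt : Prop :=
  ∀ (σ τ U J : Type) [Fintype τ] [Ring U] [Algebra ℂ U] (O : Ore σ τ U) (P : J → Lm σ τ),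
    (∀ a b, brG O.D O.c O.β (P a) (P b) = 0) →
    (∀ c : MvPolynomial σ ℂ, c ≠ 0 → ∀ u : U, O.e c * u = 0 → u = 0) →
    ∀ ev : MvPolynomial J ℂ →ₐ[ℂ] U, (∀ a, ev (X a) = O.th (P a)) →
    ∀ Q : MvPolynomial J ℂ, aeval (fun a => toP (P a)) Q = 0 → ev Q = 0

/-- CEV: evaluation at commuting elements. -/
def CEVStmt : Prop :=
  ∀ (U J : Type) [Ring U] [Algebra ℂ U] (t : J → U), (∀ a b, t a * t b = t b * t a) →
    ∃ ev : MvPolynomial J ℂ →ₐ[ℂ] U, (∀ a, ev (X a) = t a) ∧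
      ∀ p q, ev p * ev q = ev q * ev p

variable {𝔤 : Type} [LieRing 𝔤] [LieAlgebra ℂ 𝔤]

/-- `b` is adapted to the ideal `V`: the part indexed by `σ` is a basis of `V`. -/
def Adp {σ τ : Type} (V : LieIdeal ℂ 𝔤) (b : Basis (σ ⊕ τ) ℂ 𝔤) : Prop :=
  (∀ l, b (Sum.inl l) ∈ V) ∧ ∀ x ∈ V, ∀ i, b.repr x (Sum.inr i) = 0

/-- The structure constants. -/
noncomputable def cc {σ τ : Type} (b : Basis (σ ⊕ τ) ℂ 𝔤) (i j k : τ) : ℂ :=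
  b.repr ⁅b (Sum.inr i), b (Sum.inr j)⁆ (Sum.inr k)

/-- The `V` part of the brackets of the complement. -/
noncomputable def bb {σ τ : Type} [Fintype σ] (b : Basis (σ ⊕ τ) ℂ 𝔤) (i j : τ) :
    MvPolynomial σ ℂ :=
  ∑ l, C (b.repr ⁅b (Sum.inr i), b (Sum.inr j)⁆ (Sum.inl l)) * X l

/-- The derivation of `S(V)` given by the `i`-th element of the complement. -/
noncomputable def DD {σ τ : Type} [Fintype σ] (b : Basis (σ ⊕ τ) ℂ 𝔤) (i : τ) :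
    Derivation ℂ (MvPolynomial σ ℂ) (MvPolynomial σ ℂ) :=
  MvPolynomial.mkDerivation ℂ
    (fun l => ∑ m, C (b.repr ⁅b (Sum.inr i), b (Sum.inl l)⁆ (Sum.inl m)) * X m)

/-- ORE: `U(𝔤)` over `S(V)` for an abelian ideal `V`. -/
def OREStmt : Prop :=
  ∀ (𝔤 : Type) [LieRing 𝔤] [LieAlgebra ℂ 𝔤] (V : LieIdeal ℂ 𝔤) (σ τ : Type) [Fintype σ]
    [Fintype τ] (b : Basis (σ ⊕ τ) ℂ 𝔤), IsAb V → Adp V b →
    ∃ O : Ore σ τ (UniversalEnvelopingAlgebra ℂ 𝔤),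
      (∀ l, O.e (X l) = UniversalEnvelopingAlgebra.ι ℂ (b (Sum.inl l))) ∧
      (∀ i, O.x i = UniversalEnvelopingAlgebra.ι ℂ (b (Sum.inr i))) ∧
      O.D = DD b ∧ O.c = cc b ∧ O.β = bb b

/-- PBA: the operators of the Poincare-Birkhoff-Witt theorem on the polynomial ring. -/
def PBAStmt : Prop :=
  ∀ (𝔤 : Type) [LieRing 𝔤] [LieAlgebra ℂ 𝔤] (n : ℕ) (b : Basis (Fin n) ℂ 𝔤),
    ∃ T : Fin n → Module.End ℂ (MvPolynomial (Fin n) ℂ),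
      (∀ i j, T i * T j - T j * T i = ∑ k, b.repr ⁅b i, b j⁆ k • T k) ∧
      ∀ (i : Fin n) (α : Fin n →₀ ℕ), (∀ j ∈ α.support, i ≤ j) →
        T i (monomial α 1) = monomial (α + Finsupp.single i 1) 1

/-- PBW: the ordered monomials are linearly independent. -/
def PBWStmt : Prop :=
  ∀ (𝔤 : Type) [LieRing 𝔤] [LieAlgebra ℂ 𝔤] (n : ℕ) (b : Basis (Fin n) ℂ 𝔤),
    LinearIndependent ℂ (fun α : Fin n → ℕ =>
      (List.ofFn fun i => (UniversalEnvelopingAlgebra.ι ℂ (b i)) ^ (α i)).prod)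

/-- TF: `U(𝔤)` is torsion-free over `S(V)`. -/
def TFStmt : Prop :=
  ∀ (𝔤 : Type) [LieRing 𝔤] [LieAlgebra ℂ 𝔤] (σ τ : Type) [Fintype σ] [Fintype τ]
    (b : Basis (σ ⊕ τ) ℂ 𝔤)
    (e : MvPolynomial σ ℂ →ₐ[ℂ] UniversalEnvelopingAlgebra ℂ 𝔤),
    (∀ l, e (X l) = UniversalEnvelopingAlgebra.ι ℂ (b (Sum.inl l))) →
    ∀ c : MvPolynomial σ ℂ, c ≠ 0 → ∀ u, e c * u = 0 → u = 0

/-- UNQ: principal symbols are well defined. -/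
def UNQStmt : Prop :=
  ∀ (𝔤 : Type) [LieRing 𝔤] [LieAlgebra ℂ 𝔤] [FiniteDimensional ℂ 𝔤] (k : ℕ)
    (u : UniversalEnvelopingAlgebra ℂ 𝔤) (P : Dual ℂ 𝔤 → ℂ),
    HasSym k u P → u ∈ Ulow 𝔤 k → P = 0

/-- SYA: symbols of sums and products. -/
def SYAStmt : Prop :=
  ∀ (𝔤 : Type) [LieRing 𝔤] [LieAlgebra ℂ 𝔤],
    (∀ (k l : ℕ) (u v : UniversalEnvelopingAlgebra ℂ 𝔤) (P Q : Dual ℂ 𝔤 → ℂ),
      HasSym k u P → HasSym l v Q → HasSym (k + l) (u * v) (P * Q)) ∧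
    (∀ (k : ℕ) (u v : UniversalEnvelopingAlgebra ℂ 𝔤) (P Q : Dual ℂ 𝔤 → ℂ),
      HasSym k u P → HasSym k v Q → HasSym k (u + v) (P + Q)) ∧
    (∀ (k : ℕ) (c : ℂ) (u : UniversalEnvelopingAlgebra ℂ 𝔤) (P : Dual ℂ 𝔤 → ℂ),
      HasSym k u P → HasSym k (c • u) (c • P)) ∧
    HasSym 0 (1 : UniversalEnvelopingAlgebra ℂ 𝔤) 1 ∧
    (∀ x : 𝔤, HasSym 1 (UniversalEnvelopingAlgebra.ι ℂ x) (fun ξ => ξ x)) ∧
    (∀ (k l : ℕ) (u v : UniversalEnvelopingAlgebra ℂ 𝔤) (P : Dual ℂ 𝔤 → ℂ),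
      HasSym k u P → v ∈ Ulow 𝔤 l → l ≤ k → HasSym k (u + v) P) ∧
    (∀ (k l : ℕ) (u : UniversalEnvelopingAlgebra ℂ 𝔤) (P : Dual ℂ 𝔤 → ℂ),
      HasSym k u P → k < l → u ∈ Ulow 𝔤 l)

/-- The function on the dual space given by `P`. -/
noncomputable def evL {σ τ : Type} [Fintype τ] (b : Basis (σ ⊕ τ) ℂ 𝔤) (P : Lm σ τ)
    (ξ : Dual ℂ 𝔤) : ℂ :=
  eval (fun l => ξ (b (Sum.inl l))) P.1 +
    ∑ i, eval (fun l => ξ (b (Sum.inl l))) (P.2 i) * ξ (b (Sum.inr i))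

/-- `P` is homogeneous of degree `k`. -/
def HomL {σ τ : Type} (k : ℕ) (P : Lm σ τ) : Prop :=
  P.1.IsHomogeneous k ∧ ∀ i, (P.2 i).IsHomogeneous (k - 1)

/-- SYT: the symbol of the half-density lift. -/
def SYTStmt : Prop :=
  ∀ (𝔤 : Type) [LieRing 𝔤] [LieAlgebra ℂ 𝔤] (V : LieIdeal ℂ 𝔤) (σ τ : Type) [Fintype σ]
    [Fintype τ] (b : Basis (σ ⊕ τ) ℂ 𝔤) (O : Ore σ τ (UniversalEnvelopingAlgebra ℂ 𝔤)),
    IsAb V → Adp V b →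
    (∀ l, O.e (X l) = UniversalEnvelopingAlgebra.ι ℂ (b (Sum.inl l))) →
    (∀ i, O.x i = UniversalEnvelopingAlgebra.ι ℂ (b (Sum.inr i))) →
    ∀ (k : ℕ) (P : Lm σ τ), 1 ≤ k → HomL k P → HasSym k (O.th P) (evL b P)

/-- EVI: a polynomial in the `P j` which vanishes as a function vanishes in `S(V)[h]`, and the
function of a polynomial in the `P j`. -/
def EVIStmt : Prop :=
  ∀ (𝔤 : Type) [LieRing 𝔤] [LieAlgebra ℂ 𝔤] (σ τ J : Type) [Fintype σ] [Fintype τ]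
    (b : Basis (σ ⊕ τ) ℂ 𝔤) (P : J → Lm σ τ) (Q : MvPolynomial J ℂ),
    aeval (fun j => evL b (P j)) Q = 0 → aeval (fun j => toP (P j)) Q = 0

/-- THA: graded Poisson commutative algebras generated by elements of `S(V) + S(V)·h` have a
quantisation. -/
def THAStmt : Prop :=
  ∀ (𝔤 : Type) [LieRing 𝔤] [LieAlgebra ℂ 𝔤] [FiniteDimensional ℂ 𝔤] (V : LieIdeal ℂ 𝔤)
    (σ τ J : Type) [Fintype σ] [Fintype τ] (b : Basis (σ ⊕ τ) ℂ 𝔤) (P : J → Lm σ τ) (d : J → ℕ),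
    IsAb V → Adp V b → (∀ j, 1 ≤ d j) → (∀ j, HomL (d j) (P j)) →
    (∀ i j, brG (DD b) (cc b) (bb b) (P i) (P j) = 0) →
    ∃ A : Subalgebra ℂ (UniversalEnvelopingAlgebra ℂ 𝔤),
      (∀ u ∈ A, ∀ v ∈ A, u * v = v * u) ∧
      (∀ u ∈ A, u ≠ 0 → ∃ (k : ℕ) (G : Dual ℂ 𝔤 → ℂ), G ≠ 0 ∧
        G ∈ Algebra.adjoin ℂ (Set.range fun j => evL b (P j)) ∧ HasSym k u G) ∧
      Algebra.adjoin ℂ (Set.range fun j => evL b (P j)) =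
        Algebra.adjoin ℂ {G | G ≠ 0 ∧ ∃ u ∈ A, ∃ k : ℕ, HasSym k u G}

/-- BAS: adapted bases exist. -/
def BASStmt : Prop :=
  ∀ (𝔤 : Type) [LieRing 𝔤] [LieAlgebra ℂ 𝔤] [FiniteDimensional ℂ 𝔤] (V : LieIdeal ℂ 𝔤),
    ∃ (p q : ℕ) (b : Basis (Fin p ⊕ Fin q) ℂ 𝔤), Adp V b

end Alg

/-! ## Analytic part -/

section Ana

/-- The coefficient of `s ^ k` of `f (a + s ξ)`. -/
noncomputable def tayE {E : Type} [NormedAddCommGroup E] [NormedSpace ℂ E] (a : E) (f : E → ℂ)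
    (k : ℕ) : E → ℂ :=
  fun ξ => ((k.factorial : ℕ) : ℂ)⁻¹ * iteratedDeriv k (fun s : ℂ => f (a + s • ξ)) 0

/-- The span of the values at `ξ` of the linear vector fields `A i`. -/
def NN {E κ : Type} [NormedAddCommGroup E] [NormedSpace ℂ E] (A : κ → (E →L[ℂ] E)) (ξ : E) :
    Submodule ℂ E := Submodule.span ℂ (Set.range fun i => A i ξ)

/-- `f` is analytic at `a` and killed by the vector fields `A i` near `a`. -/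
def InvAt {E κ : Type} [NormedAddCommGroup E] [NormedSpace ℂ E] (A : κ → (E →L[ℂ] E)) (a : E)
    (f : E → ℂ) : Prop :=
  AnalyticAt ℂ f a ∧ ∀ᶠ ξ in nhds a, ∀ i, fderiv ℂ f ξ (A i ξ) = 0

/-- `A` is closed under commutators. -/
def LieCl {E κ : Type} [NormedAddCommGroup E] [NormedSpace ℂ E] [Fintype κ]
    (A : κ → (E →L[ℂ] E)) : Prop :=
  ∀ i j, ∃ c : κ → ℂ, ∀ ξ, A i (A j ξ) - A j (A i ξ) = ∑ k, c k • A k ξ

/-- LOC: the analytic local inverse. -/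
def LOCStmt : Prop :=
  ∀ (E E' : Type) [NormedAddCommGroup E] [NormedSpace ℂ E] [FiniteDimensional ℂ E]
    [NormedAddCommGroup E'] [NormedSpace ℂ E'] [FiniteDimensional ℂ E'] (f : E → E') (a : E),
    AnalyticAt ℂ f a → Function.Bijective (fderiv ℂ f a) →
    ∃ g : E' → E, AnalyticAt ℂ g (f a) ∧ g (f a) = a ∧ (∀ᶠ x in nhds a, g (f x) = x) ∧
      ∀ᶠ y in nhds (f a), f (g y) = y

/-- EXA: conjugation by the flow preserves the span of the `A i`. -/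
def EXAStmt : Prop :=
  ∀ (E κ : Type) [NormedAddCommGroup E] [NormedSpace ℂ E] [FiniteDimensional ℂ E] [Fintype κ]
    (A : κ → (E →L[ℂ] E)), LieCl A → ∀ (i j : κ) (s : ℂ),
    ∃ c : κ → ℂ, NormedSpace.exp (s • A i) * A j * NormedSpace.exp (-(s • A i)) =
      ∑ k, c k • A k

/-- The product of the flows. -/
noncomputable def flow {E κ : Type} [NormedAddCommGroup E] [NormedSpace ℂ E] {m : ℕ}
    (A : κ → (E →L[ℂ] E)) (l : Fin m → κ) (t : Fin m → ℂ) : E →L[ℂ] E :=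
  (List.ofFn fun i => NormedSpace.exp (t i • A (l i))).prod

/-- SLF: the partial derivatives of the product of the flows are tangent to the orbits. -/
def SLFStmt : Prop :=
  ∀ (E κ : Type) [NormedAddCommGroup E] [NormedSpace ℂ E] [FiniteDimensional ℂ E] [Fintype κ]
    (A : κ → (E →L[ℂ] E)) (m : ℕ) (l : Fin m → κ), LieCl A →
    ∀ (t : Fin m → ℂ) (x : E) (p : Fin m), ∃ v ∈ NN A (flow A l t x),
      HasDerivAt (fun s : ℂ => flow A l (Function.update t p s) x) v (t p)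

/-- SLI: existence of a complete set of local invariants at a point where the rank is locally
constant. -/
def SLIStmt : Prop :=
  ∀ (E κ : Type) [NormedAddCommGroup E] [NormedSpace ℂ E] [FiniteDimensional ℂ E] [Fintype κ]
    (A : κ → (E →L[ℂ] E)) (a : E) (m r : ℕ), LieCl A →
    (∀ᶠ ξ in nhds a, finrank ℂ (NN A ξ) = m) → r + m = finrank ℂ E →
    ∃ F : Fin r → E → ℂ, (∀ j, InvAt A a (F j)) ∧
      LinearIndependent ℂ (fun j => fderiv ℂ (F j) a)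

/-- CAR: the differential of a local invariant is a combination of the basic ones, with local
invariants as coefficients. -/
def CARStmt : Prop :=
  ∀ (E κ : Type) [NormedAddCommGroup E] [NormedSpace ℂ E] [FiniteDimensional ℂ E] [Fintype κ]
    (A : κ → (E →L[ℂ] E)) (a : E) (m r : ℕ) (F : Fin r → E → ℂ) (f : E → ℂ),
    (∀ᶠ ξ in nhds a, finrank ℂ (NN A ξ) = m) → r + m = finrank ℂ E →
    (∀ j, InvAt A a (F j)) → LinearIndependent ℂ (fun j => fderiv ℂ (F j) a) → InvAt A a f →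
    ∃ c : Fin r → E → ℂ, (∀ j, InvAt A a (c j)) ∧
      ∀ᶠ ξ in nhds a, fderiv ℂ f ξ = ∑ j, c j ξ • fderiv ℂ (F j) ξ

/-- TAY: the Taylor coefficients of all local invariants are polynomials in those of the basic
ones. -/
def TAYStmt : Prop :=
  ∀ (E κ : Type) [NormedAddCommGroup E] [NormedSpace ℂ E] [FiniteDimensional ℂ E] [Fintype κ]
    (A : κ → (E →L[ℂ] E)) (a : E) (m r : ℕ) (F : Fin r → E → ℂ),
    (∀ᶠ ξ in nhds a, finrank ℂ (NN A ξ) = m) → r + m = finrank ℂ E →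
    (∀ j, InvAt A a (F j)) → LinearIndependent ℂ (fun j => fderiv ℂ (F j) a) →
    ∀ (k : ℕ) (f : E → ℂ), 1 ≤ k → InvAt A a f →
      tayE a f k ∈ Algebra.adjoin ℂ {P : E → ℂ | ∃ (j : Fin r) (i : ℕ), 1 ≤ i ∧
        P = tayE a (F j) i}

/-- TRK: a section along `T` on which given functions are constant. -/
def TRKStmt : Prop :=
  ∀ (E : Type) [NormedAddCommGroup E] [NormedSpace ℂ E] [FiniteDimensional ℂ E]
    (a : E) (q : ℕ) (T : Submodule ℂ E) (G : Fin q → E → ℂ),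
    (∀ j, AnalyticAt ℂ (G j) a) →
    LinearIndependent ℂ (fun j => ((fderiv ℂ (G j) a : E →ₗ[ℂ] ℂ) ∘ₗ T.subtype : T →ₗ[ℂ] ℂ)) →
    ∃ κ : E → E, AnalyticAt ℂ κ a ∧ κ a = a ∧ (∀ ξ, ∀ η ∈ T, κ (ξ + η) = κ ξ) ∧
      (∀ ξ, κ ξ - ξ ∈ T) ∧ ∀ᶠ ξ in nhds a, ∀ j, G j (κ ξ) = G j a

/-- TRU: truncation of local invariants to functions which are affine along `T`. -/
def TRUStmt : Prop :=
  ∀ (E κ : Type) [NormedAddCommGroup E] [NormedSpace ℂ E] [FiniteDimensional ℂ E] [Fintype κ]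
    (A : κ → (E →L[ℂ] E)) (a : E) (m k r : ℕ) (T : Submodule ℂ E) (F : Fin r → E → ℂ),
    (∀ᶠ ξ in nhds a, finrank ℂ (NN A ξ) = m) → r + m = finrank ℂ E →
    (∀ j, InvAt A a (F j)) → LinearIndependent ℂ (fun j => fderiv ℂ (F j) a) →
    (∀ i, ∀ t ∈ T, A i t ∈ T) →
    (∀ᶠ ξ in nhds a, finrank ℂ (NN A ξ ⊓ T : Submodule ℂ E) = k) →
    (∃ U ∈ nhds a, ∀ ξ ∈ U, ∀ ξ' ∈ U, ξ - ξ' ∈ T → NN A ξ ⊓ T = NN A ξ' ⊓ T) →
    ∃ G : Fin r → E → ℂ, (∀ j, InvAt A a (G j)) ∧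
      LinearIndependent ℂ (fun j => fderiv ℂ (G j) a) ∧
      ∀ j, ∀ᶠ ξ in nhds a, ∃ L : T →ₗ[ℂ] ℂ, ∀ η : T, G j (ξ + η) = G j ξ + L η

/-- TPH: Taylor coefficients are homogeneous polynomials. -/
def TPHStmt : Prop :=
  ∀ (κ : Type) [Fintype κ] (a : κ → ℂ) (f : (κ → ℂ) → ℂ) (k : ℕ), AnalyticAt ℂ f a →
    ∃ p : MvPolynomial κ ℂ, p.IsHomogeneous k ∧ ∀ t, tayE a f k t = MvPolynomial.eval t p

/-- The functions on `σ ⊕ τ → ℂ` given by the elements of `S(V) + S(V)·h`. -/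
noncomputable def evT {σ τ : Type} [Fintype τ] (P : Lm σ τ) (t : σ ⊕ τ → ℂ) : ℂ :=
  MvPolynomial.eval (fun l => t (Sum.inl l)) P.1 +
    ∑ i, MvPolynomial.eval (fun l => t (Sum.inl l)) (P.2 i) * t (Sum.inr i)

/-- The annihilator of `V` in the coordinates of an adapted basis. -/
def TT (σ τ : Type) : Submodule ℂ (σ ⊕ τ → ℂ) where
  carrier := {t | ∀ l, t (Sum.inl l) = 0}
  add_mem' := by
    intro x y hx hy l
    rw [Pi.add_apply, hx l, hy l, add_zero]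
  zero_mem' := fun _ => rfl
  smul_mem' := by
    intro c x hx l
    rw [Pi.smul_apply, hx l, smul_zero]

/-- TPO: Taylor coefficients of functions which are affine along `T`. -/
def TPOStmt : Prop :=
  ∀ (σ τ : Type) [Fintype σ] [Fintype τ] (a : σ ⊕ τ → ℂ) (f : (σ ⊕ τ → ℂ) → ℂ) (k : ℕ),
    1 ≤ k → AnalyticAt ℂ f a →
    (∀ᶠ ξ in nhds a, ∃ L : TT σ τ →ₗ[ℂ] ℂ, ∀ η : TT σ τ, f (ξ + η) = f ξ + L η) →
    ∃ P : Lm σ τ, HomL k P ∧ tayE a f k = evT P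

end Ana

/-! ## The two parts together -/

section Lie

variable {𝔤 : Type} [LieRing 𝔤] [LieAlgebra ℂ 𝔤]

/-- The coadjoint vector fields in coordinates. -/
noncomputable def opA {κ : Type} [Fintype κ] (b : Basis κ ℂ 𝔤) (i : κ) :
    (κ → ℂ) →L[ℂ] (κ → ℂ) :=
  LinearMap.toContinuousLinearMap
    (LinearMap.pi fun j => ∑ k, (b.repr ⁅b i, b j⁆ k) • (LinearMap.proj k : (κ → ℂ) →ₗ[ℂ] ℂ))

/-- The coordinates on the dual space. -/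
noncomputable def dualC {κ : Type} (b : Basis κ ℂ 𝔤) : (κ → ℂ) ≃ₗ[ℂ] Dual ℂ 𝔤 :=
  b.constr ℂ

/-- The Poisson bracket in coordinates. -/
noncomputable def pbE {κ : Type} [Fintype κ] [DecidableEq κ] (b : Basis κ ℂ 𝔤)
    (F G : (κ → ℂ) → ℂ) (t : κ → ℂ) : ℂ :=
  ∑ p, fderiv ℂ F t (Pi.single p 1) * fderiv ℂ G t (opA b p t)

/-- OPC: elementary facts on the operators `opA`. -/
def OPCStmt : Prop :=
  ∀ (𝔤 : Type) [LieRing 𝔤] [LieAlgebra ℂ 𝔤] (κ : Type) [Fintype κ] (b : Basis κ ℂ 𝔤),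
    LieCl (opA b) ∧ (∀ i t, dualC b (opA b i t) = coad (b i) (dualC b t)) ∧
    (∀ i t, opA b i t i = 0)

/-- TR1: local invariants in coordinates. -/
def TR1Stmt : Prop :=
  ∀ (𝔤 : Type) [LieRing 𝔤] [LieAlgebra ℂ 𝔤] (κ : Type) [Fintype κ] (b : Basis κ ℂ 𝔤)
    (a : Dual ℂ 𝔤) (f : Dual ℂ 𝔤 → ℂ),
    LocInv a f ↔ InvAt (opA b) ((dualC b).symm a) (fun t => f (dualC b t))

/-- TR2: the Mishchenko-Fomenko algebra in coordinates. -/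
def TR2Stmt : Prop :=
  ∀ (𝔤 : Type) [LieRing 𝔤] [LieAlgebra ℂ 𝔤] (κ : Type) [Fintype κ] (b : Basis κ ℂ 𝔤)
    (a : Dual ℂ 𝔤) (S : Set (Dual ℂ 𝔤 → ℂ)),
    (∀ P ∈ S, ∃ (f : (κ → ℂ) → ℂ) (k : ℕ), InvAt (opA b) ((dualC b).symm a) f ∧ 1 ≤ k ∧
      ∀ t, P (dualC b t) = tayE ((dualC b).symm a) f k t) →
    (∀ (f : (κ → ℂ) → ℂ) (k : ℕ), InvAt (opA b) ((dualC b).symm a) f → 1 ≤ k →
      (fun ξ => tayE ((dualC b).symm a) f k ((dualC b).symm ξ)) ∈ Algebra.adjoin ℂ S) →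
    MF a = Algebra.adjoin ℂ S

/-- COM: the Mishchenko-Fomenko algebra is Poisson commutative. -/
def COMStmt : Prop :=
  ∀ (𝔤 : Type) [LieRing 𝔤] [LieAlgebra ℂ 𝔤] (κ : Type) [Fintype κ] [DecidableEq κ]
    (b : Basis κ ℂ 𝔤) (a : κ → ℂ) (f h : (κ → ℂ) → ℂ) (i j : ℕ),
    InvAt (opA b) a f → InvAt (opA b) a h → 1 ≤ i → 1 ≤ j →
    ∀ t, pbE b (tayE a f i) (tayE a h j) t = 0

/-- POI: the Poisson bracket of elements of `S(V) + S(V)·h`. -/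
def POIStmt : Prop :=
  ∀ (𝔤 : Type) [LieRing 𝔤] [LieAlgebra ℂ 𝔤] (V : LieIdeal ℂ 𝔤) (σ τ : Type) [Fintype σ]
    [Fintype τ] [DecidableEq σ] [DecidableEq τ] (b : Basis (σ ⊕ τ) ℂ 𝔤) (P Q : Lm σ τ),
    IsAb V → Adp V b → (∀ t, pbE b (evT P) (evT Q) t = 0) →
    brG (DD b) (cc b) (bb b) P Q = 0

/-- STB: stabilisers and orbit directions in coordinates. -/
def STBStmt : Prop :=
  ∀ (𝔤 : Type) [LieRing 𝔤] [LieAlgebra ℂ 𝔤] (V : LieIdeal ℂ 𝔤) (σ τ : Type) [Fintype σ]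
    [Fintype τ] (b : Basis (σ ⊕ τ) ℂ 𝔤), Adp V b →
    (∀ t, finrank ℂ (NN (opA b) t) + finrank ℂ (stab (dualC b t)) = finrank ℂ 𝔤) ∧
    (∀ t, finrank ℂ (NN (opA b) t ⊓ TT σ τ : Submodule ℂ (σ ⊕ τ → ℂ)) +
      finrank ℂ (stab (dualC b t) ⊔ V.toSubmodule : Submodule ℂ 𝔤) = finrank ℂ 𝔤) ∧
    (∀ t t', stab (dualC b t) ⊔ V.toSubmodule = stab (dualC b t') ⊔ V.toSubmodule →
      NN (opA b) t ⊓ TT σ τ = NN (opA b) t' ⊓ TT σ τ) ∧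
    (∀ i, ∀ t ∈ TT σ τ, opA b i t ∈ TT σ τ)

/-- SEM: genericity is an open condition. -/
def SEMStmt : Prop :=
  ∀ (𝔤 : Type) [LieRing 𝔤] [LieAlgebra ℂ 𝔤] (V : LieIdeal ℂ 𝔤) (κ : Type) [Fintype κ]
    (b : Basis κ ℂ 𝔤) (a : κ → ℂ), Gen V (dualC b a) →
    ∀ᶠ t in nhds a, Gen V (dualC b t)

end Lie

/-! ## Corollaries -/

section Cor

/-- STV: description of `stab ξ + V`. -/
def STVStmt : Prop :=
  ∀ (𝔤 : Type) [LieRing 𝔤] [LieAlgebra ℂ 𝔤] [FiniteDimensional ℂ 𝔤] (V : LieIdeal ℂ 𝔤),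
    IsAb V → ∀ (ξ : Dual ℂ 𝔤) (x : 𝔤), x ∈ stab ξ ⊔ V.toSubmodule ↔
      (∀ v ∈ V, ξ ⁅x, v⁆ = 0) ∧ ∀ y : 𝔤, (∀ v ∈ V, ξ ⁅y, v⁆ = 0) → ξ ⁅x, y⁆ = 0

/-- VRK: rank duality for the pairing of `V` and `𝔤`. -/
def VRKStmt : Prop :=
  ∀ (𝔤 : Type) [LieRing 𝔤] [LieAlgebra ℂ 𝔤] [FiniteDimensional ℂ 𝔤] (V : LieIdeal ℂ 𝔤)
    (ξ : Dual ℂ 𝔤) (W : Submodule ℂ 𝔤), (∀ y, y ∈ W ↔ ∀ v ∈ V, ξ ⁅y, v⁆ = 0) →
    finrank ℂ W + finrank ℂ V.toSubmodule =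
      finrank ℂ 𝔤 + finrank ℂ (stab ξ ⊓ V.toSubmodule : Submodule ℂ 𝔤)

/-- VIN: Vinberg's inequality and the theorem of Duflo and Vergne. -/
def VINStmt : Prop :=
  ∀ (𝔤 : Type) [LieRing 𝔤] [LieAlgebra ℂ 𝔤] [FiniteDimensional ℂ 𝔤] (a : Dual ℂ 𝔤),
    IsReg a →
    (∀ (q p : Dual ℂ 𝔤) (W : Submodule ℂ 𝔤),
      (∀ x, x ∈ W ↔ x ∈ stab q ∧ ∀ y ∈ stab q, p ⁅x, y⁆ = 0) →
      finrank ℂ (stab a) ≤ finrank ℂ W) ∧
    (∀ x ∈ stab a, ∀ y ∈ stab a, ⁅x, y⁆ = 0)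

/-- MET: condition (C) holds if `V` contains the derived algebra. -/
def METStmt : Prop :=
  ∀ (𝔤 : Type) [LieRing 𝔤] [LieAlgebra ℂ 𝔤] [FiniteDimensional ℂ 𝔤] (V : LieIdeal ℂ 𝔤),
    IsAb V → (∀ x y : 𝔤, ⁅x, y⁆ ∈ V) → CondC V

/-- SPL: regular elements are generic for `V + H`, `H` an abelian subalgebra. -/
def SPLStmt : Prop :=
  ∀ (𝔤 : Type) [LieRing 𝔤] [LieAlgebra ℂ 𝔤] [FiniteDimensional ℂ 𝔤] (V : LieIdeal ℂ 𝔤)
    (H : Submodule ℂ 𝔤), IsAb V → (∀ x ∈ H, ∀ y ∈ H, ⁅x, y⁆ = 0) →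
    H ⊔ V.toSubmodule = ⊤ → CondC V ∧ ∀ a, IsReg a → Gen V a

/-- NI2: the same for 2-step nilpotent algebras and the derived ideal. -/
def NI2Stmt : Prop :=
  ∀ (𝔤 : Type) [LieRing 𝔤] [LieAlgebra ℂ 𝔤] [FiniteDimensional ℂ 𝔤],
    (∀ x y z : 𝔤, ⁅⁅x, y⁆, z⁆ = 0) →
    ∃ V : LieIdeal ℂ 𝔤, IsAb V ∧ CondC V ∧ ∀ a, IsReg a → Gen V a

/-- `𝔤` is the Takiff algebra `K ⊗ ℂ[ε]/(ε²)`, `V = ε K`. -/
def IsTakiff {𝔤 : Type} [LieRing 𝔤] [LieAlgebra ℂ 𝔤] (K : LieSubalgebra ℂ 𝔤)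
    (V : LieIdeal ℂ 𝔤) (ε : K →ₗ[ℂ] 𝔤) : Prop :=
  IsAb V ∧ IsCompl K.toSubmodule V.toSubmodule ∧ Function.Injective ε ∧
    LinearMap.range ε = V.toSubmodule ∧ ∀ x y : K, ⁅(x : 𝔤), ε y⁆ = ε ⁅x, y⁆

/-- TAK: the same for Takiff algebras. -/
def TAKStmt : Prop :=
  ∀ (𝔤 : Type) [LieRing 𝔤] [LieAlgebra ℂ 𝔤] [FiniteDimensional ℂ 𝔤]
    (K : LieSubalgebra ℂ 𝔤) (V : LieIdeal ℂ 𝔤) (ε : K →ₗ[ℂ] 𝔤),
    IsTakiff K V ε → CondC V ∧ ∀ a, IsReg a → Gen V a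

/-- GEN: generic elements contain the complement of a hypersurface. -/
def GENStmt : Prop :=
  ∀ (𝔤 : Type) [LieRing 𝔤] [LieAlgebra ℂ 𝔤] [FiniteDimensional ℂ 𝔤] (V : LieIdeal ℂ 𝔤),
    ∃ Δ ∈ Algebra.adjoin ℂ (Set.range fun (x : 𝔤) (ξ : Dual ℂ 𝔤) => ξ x),
      Δ ≠ 0 ∧ ∀ a : Dual ℂ 𝔤, Δ a ≠ 0 → Gen V a

/-- The final statement. -/
def TopStmt : Prop :=
  MainStmt ∧
  (∀ (𝔤 : Type) [LieRing 𝔤] [LieAlgebra ℂ 𝔤] [FiniteDimensional ℂ 𝔤],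
    (∀ x y z w : 𝔤, ⁅⁅x, y⁆, ⁅z, w⁆⁆ = 0) →
    ∃ Δ ∈ Algebra.adjoin ℂ (Set.range fun (x : 𝔤) (ξ : Dual ℂ 𝔤) => ξ x),
      Δ ≠ 0 ∧ ∀ a : Dual ℂ 𝔤, Δ a ≠ 0 → ∃ A, IsQuant a A) ∧
  (∀ (𝔤 : Type) [LieRing 𝔤] [LieAlgebra ℂ 𝔤] [FiniteDimensional ℂ 𝔤] (V : LieIdeal ℂ 𝔤)
    (H : Submodule ℂ 𝔤), IsAb V → (∀ x ∈ H, ∀ y ∈ H, ⁅x, y⁆ = 0) →
    H ⊔ V.toSubmodule = ⊤ → ∀ a : Dual ℂ 𝔤, IsReg a → ∃ A, IsQuant a A) ∧
  (∀ (𝔤 : Type) [LieRing 𝔤] [LieAlgebra ℂ 𝔤] [FiniteDimensional ℂ 𝔤],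
    (∀ x y z : 𝔤, ⁅⁅x, y⁆, z⁆ = 0) → ∀ a : Dual ℂ 𝔤, IsReg a → ∃ A, IsQuant a A) ∧
  (∀ (𝔤 : Type) [LieRing 𝔤] [LieAlgebra ℂ 𝔤] [FiniteDimensional ℂ 𝔤]
    (K : LieSubalgebra ℂ 𝔤) (V : LieIdeal ℂ 𝔤) (ε : K →ₗ[ℂ] 𝔤), IsTakiff K V ε →
    ∀ a : Dual ℂ 𝔤, IsReg a → ∃ A, IsQuant a A)

end Cor

end Pool.MFQ
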